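import Pool.Agent.H755.TAest

/-!
For every `ε > 0` there is a locally unknotted, knotted polyhedral 3-knot in `E^5` whose total
absolute curvature is less than `2 + ε`, over every field.
-/

set_option autoImplicit false

namespace Pool.Agent.Results.MP_be6f00_gt.LocallyUnknottedKnot

open Pool.Agent.H755

theorem result : ∀ ε : ENNReal, 0 < ε → ∃ K : PolyhedralKnot 3,
    K.LocallyUnknotted ∧ ¬ K.Unknotted ∧ ∀ (F : Type) [Field F], TA F K < 2 + ε := by
  intro ε hε
  obtain ⟨t, ht, h⟩ := exists_stretch hε
  exact ⟨KA (stretch t ht), KA_loc _, KA_knotted _, h⟩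

end Pool.Agent.Results.MP_be6f00_gt.LocallyUnknottedKnot
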